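import Pool.Agent.U517.OS.Final

set_option autoImplicit false

/-!
# The endpoint Strichartz estimate for orthonormal systems

For every dimension `d ≥ 2`, with `p = (d+1)/d` and `q = (d+1)/(d-1)`,
`‖∑_j a_j |e^{itΔ} f_j|²‖_{L^p_t L^q_x} ≤ C(d) ‖a‖_{ℓ^{p,1}}`
for all orthonormal systems `(f_j)` of `L²(ℝ^d)` and all complex coefficients `a ∈ ℓ^{p,1}`.
-/

namespace Pool.Agent.Results.MP_dacecb_an.EndpointOrthonormalStrichartz

open MeasureTheory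
open scoped ENNReal FourierTransform

/-- The space `ℝ^d`. -/
abbrev E (d : ℕ) : Type := EuclideanSpace ℝ (Fin d)

/-- The Hilbert space `L²(ℝ^d)`. -/
abbrev L2 (d : ℕ) : Type := Lp ℂ 2 (volume : Measure (E d))

/-- The function `ξ ↦ exp(-4π² i t |ξ|²)`. -/
noncomputable def phase {d : ℕ} (t : ℝ) (ξ : E d) : ℂ :=
  Complex.exp (-(4 * Real.pi ^ 2 * t * ‖ξ‖ ^ 2 : ℝ) * Complex.I)

theorem memLp_phase_mul {d : ℕ} (t : ℝ) {g : E d → ℂ} (hg : MemLp g 2) :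
    MemLp (fun ξ => phase t ξ * g ξ) 2 :=
  Pool.Agent.U517.OS.memLp_phase t hg

/-- Multiplication of `g ∈ L²(ℝ^d)` by the function `ξ ↦ exp(-4π² i t |ξ|²)`. -/
noncomputable def phaseMul {d : ℕ} (t : ℝ) (g : L2 d) : L2 d :=
  (memLp_phase_mul t (Lp.memLp g)).toLp _

/-- The free Schrödinger propagator `e^{itΔ}` on `L²(ℝ^d)`: with Mathlib's (unitary) Fourier
transform `𝓕 f(ξ) = ∫ f(x) e^{-2πi⟨x,ξ⟩} dx` it is multiplication by `exp(-it|2πξ|²)` on the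
Fourier side. -/
noncomputable def schrodinger {d : ℕ} (t : ℝ) (f : L2 d) : L2 d := 𝓕⁻ (phaseMul t (𝓕 f))

variable {d : ℕ} {ι : Type}

/-- The `j`-th summand `a_j |e^{itΔ} f_j(x)|²`. -/
noncomputable def summand (f : ι → L2 d) (a : ι → ℂ) (t : ℝ) (x : E d) (j : ι) : ℂ :=
  a j * ((‖schrodinger t (f j) x‖ ^ 2 : ℝ) : ℂ)

/-- The function `∑_j a_j |e^{itΔ} f_j(x)|²`. -/
noncomputable def density (f : ι → L2 d) (a : ι → ℂ) (t : ℝ) (x : E d) : ℂ :=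
  ∑' j, summand f a t x j

/-- The norm `‖F‖_{L^p_t L^q_x} = (∫ ‖F(t,·)‖_{L^q}^p dt)^{1/p}`. -/
noncomputable def mixedNorm (p q : ℝ) (F : ℝ → E d → ℂ) : ℝ≥0∞ :=
  (∫⁻ t, ((∫⁻ x, ‖F t x‖ₑ ^ q) ^ (1 / q)) ^ p) ^ (1 / p)

/-- The decreasing rearrangement: `rearrangement a n` is `a*_{n+1}`, the infimum of the `s ≥ 0` such
that at most `n` of the numbers `|a_j|` are larger than `s`. -/
noncomputable def rearrangement (a : ι → ℂ) (n : ℕ) : ℝ≥0∞ :=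
  sInf {s : ℝ≥0∞ | {j | s < ‖a j‖ₑ}.encard ≤ n}

/-- The Lorentz norm `‖a‖_{ℓ^{α,1}} = ∑_{n ≥ 0} (n+1)^{1/α-1} a*_{n+1}`. -/
noncomputable def lorentzNorm (α : ℝ) (a : ι → ℂ) : ℝ≥0∞ :=
  ∑' n : ℕ, ((n : ℝ≥0∞) + 1) ^ (1 / α - 1) * rearrangement a n

/-- **Theorem.** For every `d ≥ 2` there is `C` such that, for every (finite or countably infinite)
orthonormal system `f` of `L²(ℝ^d)` and all complex coefficients `a` with `‖a‖_{ℓ^{p,1}} < ∞`,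
`p = (d+1)/d`, `q = (d+1)/(d-1)`: the series `∑_j a_j |e^{itΔ} f_j(x)|²` converges absolutely for
almost every `x` for almost every `t`, its sum has a jointly measurable version, and
`‖∑_j a_j |e^{itΔ} f_j|²‖_{L^p_t L^q_x} ≤ C ‖a‖_{ℓ^{p,1}}`. -/
theorem result (d : ℕ) (hd : 2 ≤ d) : ∃ C : ℝ, 0 < C ∧
    ∀ (ι : Type) [Countable ι] (f : ι → L2 d), Orthonormal ℂ f → ∀ a : ι → ℂ,
      lorentzNorm (((d : ℝ) + 1) / d) a < ∞ →
        (∃ F : ℝ × E d → ℂ, Measurable F ∧ ∀ t : ℝ, ∀ᵐ x : E d, F (t, x) = density f a t x) ∧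
        (∀ᵐ t : ℝ, ∀ᵐ x : E d, Summable fun j => ‖summand f a t x j‖) ∧
        mixedNorm (((d : ℝ) + 1) / d) (((d : ℝ) + 1) / ((d : ℝ) - 1)) (density f a)
          ≤ ENNReal.ofReal C * lorentzNorm (((d : ℝ) + 1) / d) a := by
  have hfr : Module.finrank ℝ (E d) = d := finrank_euclideanSpace_fin
  have hd' : 2 ≤ Module.finrank ℝ (E d) := by rw [hfr]; exact hd
  obtain ⟨C, hC, h⟩ := Pool.Agent.U517.OS.endpoint (V := E d) hd'
  refine ⟨C, hC, fun ι _ f hf a ha => ?_⟩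
  rw [hfr] at h
  obtain ⟨h1, h2, h3⟩ := h ι f hf a ha
  refine ⟨h1, ?_, h3⟩
  filter_upwards [h2] with t ht
  filter_upwards [ht] with x hx
  exact hx.norm

end Pool.Agent.Results.MP_dacecb_an.EndpointOrthonormalStrichartz
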